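import Pool.Agent.Y251.LT.Stm

/-!
# LT-NEAR: domination at points close to the saddle point
-/

set_option autoImplicit false

open MeasureTheory Complex Metric Set Filter Topology
open scoped Real ComplexConjugate

namespace Pool.Agent.Y495.LT

open Pool.Agent.Y251.LT

lemma cos_bd (x : ℝ) (hx : |x| ≤ 401 / 100) : Real.cos x ≤ 1 - 6 / 100 * x ^ 2 := by
  have hπ := Real.pi_gt_three
  have hπ2 := Real.pi_lt_d2
  have hx2 : x ^ 2 ≤ (401 / 100) ^ 2 := by
    rw [← sq_abs]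
    exact pow_le_pow_left₀ (abs_nonneg x) hx 2
  rcases le_total |x| Real.pi with h | h
  · have h1 := Real.cos_le_one_sub_mul_cos_sq h
    have h2 : (6 : ℝ) / 100 ≤ 2 / Real.pi ^ 2 := by
      rw [le_div_iff₀ (by positivity)]
      norm_num at hπ2
      nlinarith
    have h3 : 6 / 100 * x ^ 2 ≤ 2 / Real.pi ^ 2 * x ^ 2 :=
      mul_le_mul_of_nonneg_right h2 (sq_nonneg x)
    linarith
  · have h1 : Real.cos |x| ≤ 0 := Real.cos_nonpos_of_pi_div_two_le_of_le (by linarith) (by linarith)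
    rw [Real.cos_abs] at h1
    have h2 : 6 / 100 * x ^ 2 ≤ 1 := by norm_num at hx2; linarith
    linarith

/-- the elementary inequality for the rotated exponential -/
lemma core (E σ : ℂ) (x δ : ℝ) (hx : |x| ≤ 401 / 100) (hδ : 0 < δ) (hδ1 : δ ≤ 1 / 10 ^ 6)
    (hE : ‖E - 1‖ ≤ 34 * δ) (hσ : ‖σ‖ ≤ 33 * |x| * δ) :
    (E * Complex.exp (((x : ℝ) : ℂ) * I) * (1 + σ)).re ≤ ‖E‖ * (1 + 25000 * δ ^ 2) := by
  have hre : |E.re - 1| ≤ 34 * δ := by
    have := Complex.abs_re_le_norm (E - 1)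
    rw [Complex.sub_re, Complex.one_re] at this
    linarith
  have him : |E.im| ≤ 34 * δ := by
    have := Complex.abs_im_le_norm (E - 1)
    rw [Complex.sub_im, Complex.one_im, sub_zero] at this
    linarith
  have hre1 : 99 / 100 ≤ E.re := by
    have := (abs_le.1 hre).1
    norm_num at hδ1
    linarith
  have he : E.re ≤ ‖E‖ := Complex.re_le_norm E
  have he2 : ‖E‖ ^ 2 = E.re ^ 2 + E.im ^ 2 := by
    rw [← Complex.normSq_eq_norm_sq, Complex.normSq_apply]
    ring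
  set e := ‖E‖ with hedef
  have him2 : E.im ^ 2 ≤ (34 * δ) ^ 2 := by
    rw [← sq_abs]
    exact pow_le_pow_left₀ (abs_nonneg _) him 2
  have hdiff : e - E.re ≤ 600 * δ ^ 2 * e := by
    have h1 : (e - E.re) * (e + E.re) = E.im ^ 2 := by nlinarith
    have h2 : (e - E.re) * (198 / 100) ≤ (e - E.re) * (e + E.re) :=
      mul_le_mul_of_nonneg_left (by linarith) (by linarith)
    have h3 : (e - E.re) * (198 / 100) ≤ 1156 * δ ^ 2 := by nlinarith
    have h4 : (99 / 100) * δ ^ 2 ≤ δ ^ 2 * e := by nlinarith [sq_nonneg δ]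
    nlinarith [sq_nonneg δ]
  have hexp : Complex.exp (((x : ℝ) : ℂ) * I) = (Real.cos x : ℂ) + (Real.sin x : ℂ) * I := by
    rw [Complex.exp_mul_I, ← Complex.ofReal_cos, ← Complex.ofReal_sin]
  have hnorm : ‖Complex.exp (((x : ℝ) : ℂ) * I)‖ = 1 := Complex.norm_exp_ofReal_mul_I x
  have h1 : (E * Complex.exp (((x : ℝ) : ℂ) * I) * (1 + σ)).re =
      (E.re * Real.cos x - E.im * Real.sin x) + (E * Complex.exp (((x : ℝ) : ℂ) * I) * σ).re := by
    rw [mul_add, mul_one, Complex.add_re]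
    congr 1
    have hr : ((Real.cos x : ℂ) + (Real.sin x : ℂ) * I).re = Real.cos x := by
      rw [Complex.add_re, Complex.ofReal_re, Complex.re_ofReal_mul, Complex.I_re, mul_zero,
        add_zero]
    have hi : ((Real.cos x : ℂ) + (Real.sin x : ℂ) * I).im = Real.sin x := by
      rw [Complex.add_im, Complex.ofReal_im, Complex.im_ofReal_mul, Complex.I_im, mul_one,
        zero_add]
    rw [hexp, Complex.mul_re, hr, hi]
  have h2 : (E * Complex.exp (((x : ℝ) : ℂ) * I) * σ).re ≤ e * (33 * |x| * δ) := by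
    refine (Complex.re_le_norm _).trans ?_
    rw [norm_mul, norm_mul, hnorm, mul_one]
    exact mul_le_mul_of_nonneg_left hσ (norm_nonneg _)
  have hcos := cos_bd x hx
  have hcos1 : -1 ≤ Real.cos x := Real.neg_one_le_cos x
  have h3 : E.re * Real.cos x ≤ e * Real.cos x + (e - E.re) := by nlinarith
  have h4 : -(E.im * Real.sin x) ≤ 34 * δ * |x| := by
    calc -(E.im * Real.sin x) ≤ |E.im * Real.sin x| := neg_le_abs _
      _ = |E.im| * |Real.sin x| := abs_mul _ _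
      _ ≤ (34 * δ) * |x| := mul_le_mul him Real.abs_sin_le_abs (abs_nonneg _) (by positivity)
  have h5 : 34 * δ * |x| ≤ e * (35 * δ * |x|) := by
    have h6 : 0 ≤ δ * |x| := by positivity
    nlinarith
  have h6 : e * Real.cos x ≤ e * (1 - 6 / 100 * x ^ 2) :=
    mul_le_mul_of_nonneg_left hcos (by linarith)
  have h7 : 68 * δ * |x| - 6 / 100 * x ^ 2 ≤ 20000 * δ ^ 2 := by
    rw [← sq_abs x]
    nlinarith [sq_nonneg (|x| - 68 / 12 * 100 * δ)]
  have h8 : e * (68 * δ * |x| - 6 / 100 * x ^ 2) ≤ e * (20000 * δ ^ 2) :=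
    mul_le_mul_of_nonneg_left h7 (by linarith)
  rw [h1]
  nlinarith [sq_nonneg δ]

/-- the size of the leading term -/
lemma lead (X K δ : ℝ) (b : ℂ) (hX : 0 < X) (hK : 0 < K) (hδ : 0 < δ) (hδ1 : δ ≤ 1 / 10 ^ 6)
    (hb : ‖b‖ ≤ 32 * δ * K) :
    ‖(X : ℂ) / ((K : ℂ) + b)‖ * (1 + 25000 * δ ^ 2) ≤
      ((X : ℂ) / ((K : ℂ) + b)).re + 10 ^ 5 * (X * δ ^ 2 / K) := by
  set z : ℂ := (K : ℂ) + b with hz
  have hzre : z.re = K + b.re := by simp [hz]
  have hzim : z.im = b.im := by simp [hz]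
  have hbre : |b.re| ≤ 32 * δ * K := (Complex.abs_re_le_norm b).trans hb
  have hbim : |b.im| ≤ 32 * δ * K := (Complex.abs_im_le_norm b).trans hb
  have hδK : 32 * δ * K ≤ K / 100 := by
    norm_num at hδ1
    nlinarith
  have hre : 99 / 100 * K ≤ z.re := by
    rw [hzre]
    have := (abs_le.1 hbre).1
    linarith
  have hrenorm : z.re ≤ ‖z‖ := Complex.re_le_norm z
  have hnpos : 0 < ‖z‖ := by linarith [hre, hrenorm, mul_pos (by norm_num : (0:ℝ) < 99/100) hK]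
  have hn2 : ‖z‖ ^ 2 = z.re ^ 2 + z.im ^ 2 := by
    rw [← Complex.normSq_eq_norm_sq, Complex.normSq_apply]
    ring
  have h1 : ‖(X : ℂ) / z‖ = X / ‖z‖ := by
    rw [norm_div, Complex.norm_real, Real.norm_eq_abs, abs_of_pos hX]
  have h2 : ((X : ℂ) / z).re = X * z.re / ‖z‖ ^ 2 := by
    rw [Complex.div_re, Complex.ofReal_re, Complex.ofReal_im, zero_mul, zero_div, add_zero,
      Complex.normSq_eq_norm_sq]
  have him2 : z.im ^ 2 ≤ (32 * δ * K) ^ 2 := by
    rw [hzim, ← sq_abs]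
    exact pow_le_pow_left₀ (abs_nonneg _) hbim 2
  -- `‖z‖ - re z` is small
  have h3 : ‖z‖ - z.re ≤ 600 * δ ^ 2 * K := by
    have h4 : (‖z‖ - z.re) * (‖z‖ + z.re) = z.im ^ 2 := by nlinarith
    have h5 : (‖z‖ - z.re) * (198 / 100 * K) ≤ (‖z‖ - z.re) * (‖z‖ + z.re) :=
      mul_le_mul_of_nonneg_left (by linarith) (by linarith)
    have h6 : (‖z‖ - z.re) * (198 / 100 * K) ≤ (600 * δ ^ 2 * K) * (198 / 100 * K) := by
      nlinarith [sq_nonneg (δ * K)]
    exact le_of_mul_le_mul_right h6 (by positivity)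
  rw [h1, h2]
  have h7 : X / ‖z‖ - X * z.re / ‖z‖ ^ 2 = X * (‖z‖ - z.re) / ‖z‖ ^ 2 := by
    field_simp
  have h8 : X * (‖z‖ - z.re) / ‖z‖ ^ 2 ≤ 700 * (X * δ ^ 2 / K) := by
    rw [div_le_iff₀ (by positivity)]
    have h9 : (99 / 100 * K) ^ 2 ≤ ‖z‖ ^ 2 :=
      pow_le_pow_left₀ (by positivity) (by linarith) 2
    calc X * (‖z‖ - z.re) ≤ X * (600 * δ ^ 2 * K) := mul_le_mul_of_nonneg_left h3 hX.le
      _ ≤ 700 * (X * δ ^ 2 / K) * (99 / 100 * K) ^ 2 := by
          have h10 : 700 * (X * δ ^ 2 / K) * (99 / 100 * K) ^ 2 =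
              700 * (99 / 100) ^ 2 * (X * δ ^ 2 * K) := by
            field_simp
          rw [h10]
          have h11 : 0 ≤ X * δ ^ 2 * K := by positivity
          nlinarith
      _ ≤ _ := mul_le_mul_of_nonneg_left h9 (by positivity)
  have h12 : X / ‖z‖ * (25000 * δ ^ 2) ≤ 30000 * (X * δ ^ 2 / K) := by
    have h13 : X / ‖z‖ ≤ X / (99 / 100 * K) :=
      div_le_div_of_nonneg_left hX.le (by positivity) (by linarith)
    calc X / ‖z‖ * (25000 * δ ^ 2) ≤ X / (99 / 100 * K) * (25000 * δ ^ 2) :=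
          mul_le_mul_of_nonneg_right h13 (by positivity)
      _ = 25000 * (100 / 99) * (X * δ ^ 2 / K) := by
          field_simp
      _ ≤ 30000 * (X * δ ^ 2 / K) := by
          have h14 : 0 ≤ X * δ ^ 2 / K := by positivity
          nlinarith
  have h15 : 0 ≤ X * δ ^ 2 / K := by positivity
  nlinarith

theorem near (hALN : S_ALN) : S_NEAR := by
  intro q X p hq hX hp hdom y hy
  have hq0 : 0 < q := by norm_num at hq; linarith
  have hq1 : 1 ≤ q := by norm_num at hq; linarith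
  obtain ⟨K, hK⟩ : ∃ K : ℝ, K = q ^ 8 := ⟨_, rfl⟩
  obtain ⟨δ, hδdef⟩ : ∃ δ : ℝ, δ = 1 / q ^ 5 := ⟨_, rfl⟩
  have hK0 : 0 < K := by rw [hK]; positivity
  have hδ : 0 < δ := by rw [hδdef]; positivity
  have hδ1 : δ ≤ 1 / 10 ^ 8 := by
    rw [hδdef]
    apply one_div_le_one_div_of_le (by norm_num)
    calc (10 : ℝ) ^ 8 ≤ q := hq
      _ = q ^ 1 := (pow_one q).symm
      _ ≤ q ^ 5 := pow_le_pow_right₀ hq1 (by norm_num)
  have hδ2 : δ ≤ 1 / 10 ^ 6 := hδ1.trans (by norm_num)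
  have hq3 : q ^ 3 = δ * K := by
    rw [hδdef, hK]
    field_simp
  have hη : 1 / (8 * q ^ 6) ≤ δ / 10 ^ 8 := by
    rw [hδdef, div_div]
    apply one_div_le_one_div_of_le (by positivity)
    have h1 : q ^ 6 = q * q ^ 5 := by ring
    rw [h1]
    have h2 : 0 < q ^ 5 := by positivity
    nlinarith
  have hX18 : X / q ^ 18 = X * δ ^ 2 / K := by
    rw [hδdef, hK]
    field_simp
  -- the neighbourhood
  have hA : 4 / (K - 1) ≤ 1 / (16 * q ^ 6) := by
    have h1 : 0 < q ^ 6 := by positivity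
    have h2 : K = q ^ 6 * q ^ 2 := by rw [hK]; ring
    have h3 : 1 ≤ q ^ 6 := one_le_pow₀ hq1
    have h4 : 1000 ≤ q ^ 2 := by norm_num at hq; nlinarith
    have h5 : 64 * q ^ 6 ≤ K - 1 := by nlinarith
    rw [div_le_div_iff₀ (by linarith) (by positivity)]
    linarith
  have hK1 : 1000 ≤ K := by
    have h2 : K = q * q ^ 7 := by rw [hK]; ring
    have h3 : 1 ≤ q ^ 7 := one_le_pow₀ hq1
    norm_num at hq
    nlinarith
  have hnear : ∀ v ∈ Icc (y - 4 / (K - 1)) (y + 4 / (K - 1)), |v| ≤ 1 / (8 * q ^ 6) := by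
    intro v hv
    have h1 := (abs_le.1 hy).1
    have h2 := (abs_le.1 hy).2
    have h3 : 1 / (8 * q ^ 6) = 1 / (16 * q ^ 6) + 1 / (16 * q ^ 6) := by
      field_simp
      norm_num
    rw [abs_le, h3]
    constructor
    · linarith [hv.1]
    · linarith [hv.2]
  have hnI : ∀ v : ℝ, ‖(v : ℂ) * I‖ = |v| := by
    intro v
    rw [norm_mul, Complex.norm_I, mul_one, Complex.norm_real, Real.norm_eq_abs]
  have h8 : 1 / (8 * q ^ 6) ≤ 1 / (4 * q ^ 6) := by
    apply one_div_le_one_div_of_le (by positivity)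
    nlinarith [pow_pos hq0 6]
  have h4 : 1 / (4 * q ^ 6) ≤ 1 / (2 * q ^ 6) := by
    apply one_div_le_one_div_of_le (by positivity)
    nlinarith [pow_pos hq0 6]
  have h2' : 1 / (2 * q ^ 6) < 1 / q ^ 6 := by
    apply one_div_lt_one_div_of_lt (by positivity)
    nlinarith [pow_pos hq0 6]
  have hPb : ∀ v : ℝ, |v| ≤ 1 / (8 * q ^ 6) → ‖p ((v : ℂ) * I)‖ ≤ 1 / 100 := by
    intro v hv
    have h1 := hp.b0 ((v : ℂ) * I) (by rw [hnI]; linarith)
    rw [hnI, hq3] at h1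
    refine h1.trans ?_
    have h2 : |v| ≤ δ / 10 ^ 8 := hv.trans hη
    have h3 : δ * K * |v| ≤ δ * K * (1 / (8 * q ^ 6)) :=
      mul_le_mul_of_nonneg_left hv (by positivity)
    have h5 : δ * K * (1 / (8 * q ^ 6)) = 1 / (8 * q ^ 3) := by
      rw [← hq3]
      field_simp
    have h6 : 1 / (8 * q ^ 3) ≤ 1 / (8 * 10 ^ 8) := by
      apply one_div_le_one_div_of_le (by norm_num)
      have h7 : q ≤ q ^ 3 := by
        calc q = q ^ 1 := (pow_one q).symm
          _ ≤ q ^ 3 := pow_le_pow_right₀ hq1 (by norm_num)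
      linarith
    have h9 : 16 * (δ * K) * |v| = 16 * (δ * K * |v|) := by ring
    have h10 : (16 : ℝ) * (1 / (8 * 10 ^ 8)) ≤ 1 / 100 := by norm_num
    rw [h9]
    rw [h5] at h3
    linarith
  have hDb : ∀ v : ℝ, |v| ≤ 1 / (8 * q ^ 6) → ‖deriv p ((v : ℂ) * I)‖ ≤ 32 * δ * K := by
    intro v hv
    have h1 := hp.b1 ((v : ℂ) * I) (by rw [hnI]; linarith)
    rw [hq3] at h1
    linarith
  have hball : ∀ v : ℝ, |v| ≤ 1 / (8 * q ^ 6) → (v : ℂ) * I ∈ ball (0 : ℂ) (1 / q ^ 6) := by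
    intro v hv
    rw [mem_ball_zero_iff, hnI]
    linarith
  set b : ℂ := deriv p 0 with hb
  have hbb : ‖b‖ ≤ 32 * δ * K := by
    have := hDb 0 (by rw [abs_zero]; positivity)
    simpa using this
  have hsmall : 32 * δ * K ≤ K / 100 := by
    norm_num at hδ1
    nlinarith
  have hKb : (K : ℂ) + b ≠ 0 := by
    intro h0
    have h1 : (K : ℂ) = -b := by linear_combination h0
    have h2 := congrArg norm h1
    rw [norm_neg, Complex.norm_real, Real.norm_eq_abs, abs_of_pos hK0] at h2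
    linarith
  have hKc : (K : ℂ) ≠ 0 := by exact_mod_cast hK0.ne'
  have hKq : (K : ℂ) = (q : ℂ) ^ 8 := by rw [hK]; push_cast; rfl
  -- the aligned point
  obtain ⟨y2, hy2, him, hre⟩ := hALN
    (fun v : ℝ => p ((v : ℂ) * I) + deriv p ((v : ℂ) * I) / (K : ℂ)) ((K : ℂ) / ((K : ℂ) + b))
    (K - 1) y (by linarith) (div_ne_zero hKc hKb) (by
      have hmap : MapsTo (fun v : ℝ => (v : ℂ) * I) (Icc (y - 4 / (K - 1)) (y + 4 / (K - 1)))
          (ball (0 : ℂ) (1 / q ^ 6)) := fun v hv => hball v (hnear v hv)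
      have hc : ContinuousOn (fun v : ℝ => (v : ℂ) * I)
          (Icc (y - 4 / (K - 1)) (y + 4 / (K - 1))) := by
        apply Continuous.continuousOn
        fun_prop
      have h1 : ContinuousOn (fun v : ℝ => p ((v : ℂ) * I))
          (Icc (y - 4 / (K - 1)) (y + 4 / (K - 1))) := hp.diff.continuousOn.comp hc hmap
      have h2 : ContinuousOn (fun v : ℝ => deriv p ((v : ℂ) * I))
          (Icc (y - 4 / (K - 1)) (y + 4 / (K - 1))) :=
        (hp.diff.deriv isOpen_ball).continuousOn.comp hc hmap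
      exact h1.add (h2.div_const _)) (by
      intro v hv
      have hv' := hnear v hv
      refine (norm_add_le _ _).trans ?_
      rw [norm_div, Complex.norm_real, Real.norm_eq_abs, abs_of_pos hK0]
      have h1 := hPb v hv'
      have h2 : ‖deriv p ((v : ℂ) * I)‖ / K ≤ 1 / 100 := by
        rw [div_le_iff₀ hK0]
        have := hDb v hv'
        linarith
      linarith)
  have hy2' : |y2| ≤ 1 / (8 * q ^ 6) := by
    apply hnear
    have h1 := (abs_le.1 hy2).1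
    have h3 := (abs_le.1 hy2).2
    constructor <;> linarith
  set P2 : ℂ := p ((y2 : ℂ) * I) with hP2
  set D2 : ℂ := deriv p ((y2 : ℂ) * I) with hD2
  have hwv : wv q p y2 = (K : ℂ) / ((K : ℂ) + b) *
      (Complex.exp ((((K - 1) * y2 : ℝ) : ℂ) * I) * (1 + (P2 + D2 / (K : ℂ)))) := by
    unfold wv
    rw [← hKq, ← hK]
    show Complex.exp ((((K - 1) * y2 : ℝ) : ℂ) * I) * ((K : ℂ) * (1 + P2) + D2) / ((K : ℂ) + b) = _
    field_simp
    ring
  rw [← hwv] at him hre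
  have h1P := hdom y2 hy2' him hre.le
  rw [← hP2] at h1P
  -- the real number `w`
  obtain ⟨w, hw⟩ : ∃ w : ℝ, w = (wv q p y2).re := ⟨_, rfl⟩
  have hw0 : 0 < w := by rw [hw]; exact hre
  have hwc : wv q p y2 = (w : ℂ) := by
    apply Complex.ext
    · rw [Complex.ofReal_re, hw]
    · rw [Complex.ofReal_im, him]
  have hP2b := hPb y2 hy2'
  have hD2b := hDb y2 hy2'
  rw [← hP2] at hP2b
  rw [← hD2] at hD2b
  have hn1P : 99 / 100 ≤ ‖1 + P2‖ := by
    have h1 : ‖(1 : ℂ)‖ ≤ ‖1 + P2‖ + ‖P2‖ := by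
      calc ‖(1 : ℂ)‖ = ‖(1 + P2) - P2‖ := by rw [add_sub_cancel_right]
        _ ≤ _ := norm_sub_le _ _
    rw [norm_one] at h1
    linarith
  have h1P0 : 1 + P2 ≠ 0 := by
    intro h0
    rw [h0, norm_zero] at hn1P
    norm_num at hn1P
  set D : ℂ := D2 / (1 + P2) with hD
  have hDn : ‖D / (K : ℂ)‖ ≤ 33 * δ := by
    rw [hD, norm_div, norm_div, Complex.norm_real, Real.norm_eq_abs, abs_of_pos hK0,
      div_le_iff₀ hK0, div_le_iff₀ (by linarith)]
    have h1 : 0 ≤ 33 * δ * K := by positivity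
    nlinarith
  have h1D : 99 / 100 ≤ ‖1 + D / (K : ℂ)‖ := by
    have h1 : ‖(1 : ℂ)‖ ≤ ‖1 + D / (K : ℂ)‖ + ‖D / (K : ℂ)‖ := by
      calc ‖(1 : ℂ)‖ = ‖(1 + D / (K : ℂ)) - D / (K : ℂ)‖ := by rw [add_sub_cancel_right]
        _ ≤ _ := norm_sub_le _ _
    rw [norm_one] at h1
    norm_num at hδ1
    linarith
  have h1D0 : 1 + D / (K : ℂ) ≠ 0 := by
    intro h0
    rw [h0, norm_zero] at h1D
    norm_num at h1D
  have h1D' : 1 - 33 * δ ≤ ‖1 + D / (K : ℂ)‖ := by
    have h1 : ‖(1 : ℂ)‖ ≤ ‖1 + D / (K : ℂ)‖ + ‖D / (K : ℂ)‖ := by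
      calc ‖(1 : ℂ)‖ = ‖(1 + D / (K : ℂ)) - D / (K : ℂ)‖ := by rw [add_sub_cancel_right]
        _ ≤ _ := norm_sub_le _ _
    rw [norm_one] at h1
    linarith
  set E : ℂ := Complex.exp ((y2 : ℂ) * I) / (1 + D / (K : ℂ)) with hEdef
  have hE1 : ‖E - 1‖ ≤ 34 * δ := by
    have h1 : E - 1 = ((Complex.exp ((y2 : ℂ) * I) - 1) - D / (K : ℂ)) / (1 + D / (K : ℂ)) := by
      rw [hEdef, div_sub_one h1D0]
      congr 1
      ring
    rw [h1, norm_div, div_le_iff₀ (by linarith)]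
    have h3 : ‖Complex.exp ((y2 : ℂ) * I) - 1‖ ≤ |y2| := by
      have := Real.norm_exp_I_mul_ofReal_sub_one_le (x := y2)
      rw [mul_comm (y2 : ℂ) I]
      exact this
    have h5 : |y2| ≤ δ / 10 ^ 8 := hy2'.trans hη
    have h6 : ‖(Complex.exp ((y2 : ℂ) * I) - 1) - D / (K : ℂ)‖ ≤ |y2| + 33 * δ :=
      (norm_sub_le _ _).trans (add_le_add h3 hDn)
    norm_num at h5 hδ1
    nlinarith
  -- the mean value inequality
  obtain ⟨x, hx⟩ : ∃ x : ℝ, x = K * (y - y2) := ⟨_, rfl⟩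
  set σ : ℂ := (p ((y : ℂ) * I) - P2) / (1 + P2) with hσdef
  have hyb : |y| ≤ 1 / (8 * q ^ 6) := by
    have : 1 / (16 * q ^ 6) ≤ 1 / (8 * q ^ 6) := by
      apply one_div_le_one_div_of_le (by positivity)
      nlinarith [pow_pos hq0 6]
    linarith
  have hdelta : |y - y2| = |x| / K := by
    rw [hx, abs_mul, abs_of_pos hK0]
    field_simp
  have hmv : ‖p ((y : ℂ) * I) - P2‖ ≤ 32 * δ * |x| := by
    have h1 : ‖p ((y : ℂ) * I) - p ((y2 : ℂ) * I)‖ ≤
        (32 * q ^ 3) * ‖(y : ℂ) * I - (y2 : ℂ) * I‖ := by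
      apply Convex.norm_image_sub_le_of_norm_deriv_le (s := closedBall (0 : ℂ) (1 / (4 * q ^ 6)))
      · intro u hu
        apply hp.diff.differentiableAt
        apply isOpen_ball.mem_nhds
        rw [mem_ball_zero_iff]
        rw [mem_closedBall_zero_iff] at hu
        linarith
      · intro u hu
        rw [mem_closedBall_zero_iff] at hu
        exact hp.b1 u hu
      · exact convex_closedBall _ _
      · rw [mem_closedBall_zero_iff, hnI]
        linarith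
      · rw [mem_closedBall_zero_iff, hnI]
        linarith
    have h3 : (y : ℂ) * I - (y2 : ℂ) * I = ((y - y2 : ℝ) : ℂ) * I := by push_cast; ring
    rw [h3, hnI, hdelta, hq3] at h1
    refine h1.trans (le_of_eq ?_)
    field_simp
  have hσ : ‖σ‖ ≤ 33 * |x| * δ := by
    rw [hσdef, norm_div, div_le_iff₀ (by linarith)]
    have h1 : 0 ≤ |x| * δ := by positivity
    nlinarith
  have hx4 : |x| ≤ 401 / 100 := by
    rw [hx, abs_mul, abs_of_pos hK0, abs_sub_comm]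
    have h1 : K * |y2 - y| ≤ K * (4 / (K - 1)) := mul_le_mul_of_nonneg_left hy2 hK0.le
    refine h1.trans ?_
    rw [← mul_div_assoc, div_le_iff₀ (by linarith)]
    linarith
  -- the formulas for `TT`
  obtain ⟨M, hM⟩ : ∃ M : ℝ, M = X * w / K := ⟨_, rfl⟩
  have hM0 : 0 < M := by rw [hM]; positivity
  have hT2 : (M : ℂ) * E = (X : ℂ) / ((K : ℂ) + b) *
      (Complex.exp (((K * y2 : ℝ) : ℂ) * I) * (1 + P2)) := by
    have h1 : (M : ℂ) = (X : ℂ) * wv q p y2 / (K : ℂ) := by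
      rw [hM, hwc]
      push_cast
      ring
    have h3 : Complex.exp (((K * y2 : ℝ) : ℂ) * I) =
        Complex.exp ((((K - 1) * y2 : ℝ) : ℂ) * I) * Complex.exp ((y2 : ℂ) * I) := by
      rw [← Complex.exp_add]
      congr 1
      push_cast
      ring
    have h5 : 1 + (P2 + D2 / (K : ℂ)) = (1 + P2) * (1 + D / (K : ℂ)) := by
      rw [hD]
      field_simp
      ring
    have hKD : (K : ℂ) + D ≠ 0 := by
      have h6 : (K : ℂ) + D = (K : ℂ) * (1 + D / (K : ℂ)) := by field_simp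
      rw [h6]
      exact mul_ne_zero hKc h1D0
    rw [h1, hwv, h3, hEdef, h5]
    field_simp
  have hTy : TT q X p y = (M : ℂ) * (E * Complex.exp ((x : ℂ) * I) * (1 + σ)) := by
    have h1 : TT q X p y = (X : ℂ) / ((K : ℂ) + b) *
        (Complex.exp (((K * y : ℝ) : ℂ) * I) * (1 + p ((y : ℂ) * I))) := by
      unfold TT
      rw [← hKq, ← hK]
    have h3 : Complex.exp (((K * y : ℝ) : ℂ) * I) =
        Complex.exp (((K * y2 : ℝ) : ℂ) * I) * Complex.exp ((x : ℂ) * I) := by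
      rw [← Complex.exp_add, hx]
      congr 1
      push_cast
      ring
    have h5 : 1 + p ((y : ℂ) * I) = (1 + P2) * (1 + σ) := by
      rw [hσdef]
      field_simp
      ring
    rw [h1, h3, h5]
    have h6 : (M : ℂ) * (E * Complex.exp ((x : ℂ) * I) * (1 + σ)) =
        ((M : ℂ) * E) * (Complex.exp ((x : ℂ) * I) * (1 + σ)) := by ring
    rw [h6, hT2]
    ring
  have hT0 : TT q X p 0 = (X : ℂ) / ((K : ℂ) + b) := by
    unfold TT
    rw [← hKq]
    simp [hp.zero, hb]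
  have hME : M * ‖E‖ ≤ ‖(X : ℂ) / ((K : ℂ) + b)‖ := by
    have h1 : M * ‖E‖ = ‖(M : ℂ) * E‖ := by
      rw [norm_mul, Complex.norm_real, Real.norm_eq_abs, abs_of_pos hM0]
    rw [h1, hT2, norm_mul, norm_mul, Complex.norm_exp_ofReal_mul_I, one_mul]
    have h3 : 0 ≤ ‖(X : ℂ) / ((K : ℂ) + b)‖ := norm_nonneg _
    nlinarith
  have hcore := core E σ x δ hx4 hδ hδ2 hE1 hσ
  have hlead := lead X K δ b hX hK0 hδ hδ2 hbb
  rw [hT0, hTy, Complex.re_ofReal_mul]
  have hfin : M * (E * Complex.exp ((x : ℂ) * I) * (1 + σ)).re ≤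
      ‖(X : ℂ) / ((K : ℂ) + b)‖ * (1 + 25000 * δ ^ 2) := by
    calc M * (E * Complex.exp ((x : ℂ) * I) * (1 + σ)).re ≤
          M * (‖E‖ * (1 + 25000 * δ ^ 2)) := mul_le_mul_of_nonneg_left hcore hM0.le
      _ = (M * ‖E‖) * (1 + 25000 * δ ^ 2) := by ring
      _ ≤ _ := mul_le_mul_of_nonneg_right hME (by positivity)
  have hlast : 10 ^ 5 * X / q ^ 18 = 10 ^ 5 * (X * δ ^ 2 / K) := by
    rw [mul_div_assoc, hX18]
  rw [hlast]
  linarith

end Pool.Agent.Y495.LT
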